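import Mathlib

/-!
# An optimal burning sequence containing no minimum lazy burning set

There is a hypergraph with 8 vertices, burning number 4 and lazy burning number 2 that has an
optimal burning sequence none of whose 2-element subsets is a lazy burning set.
-/

namespace Pool.Agent.Results.MP_50e72c_co.OptimalWithoutLazy

open Finset

section Defs

variable {V : Type} [Fintype V] [DecidableEq V] (E : Finset (Finset V))

/-- The vertex `v` catches fire from the set `B` of burned vertices. -/
def Catches (B : Finset V) (v : V) : Prop := ∃ e ∈ E, 2 ≤ e.card ∧ v ∈ e ∧ e \ {v} ⊆ B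

instance (B : Finset V) : DecidablePred (Catches E B) := fun v => by
  unfold Catches; infer_instance

/-- The set of vertices burned after one step of the propagation rule. -/
def prop (B : Finset V) : Finset V := B ∪ univ.filter (Catches E B)

/-- The set `F_r` for the sources `u 1, u 2, …`. -/
def F (u : ℕ → V) : ℕ → Finset V
  | 0 => ∅
  | r + 1 => insert (u (r + 1)) (prop E (F u r))

/-- `(u 1, …, u k)` is a burning sequence. -/
def IsBurning (k : ℕ) (u : ℕ → V) : Prop :=
  (∀ r, r < k → u (r + 1) ∉ F E u r) ∧ F E u k = univ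

/-- `(u 1, …, u k)` is an optimal burning sequence. -/
def IsOptimal (k : ℕ) (u : ℕ → V) : Prop :=
  IsBurning E k u ∧ ∀ k' u', IsBurning E k' u' → k ≤ k'

/-- Lazy burning sets: the propagation started from `S` eventually burns everything. -/
def IsLazy (S : Finset V) : Prop := ∃ n, (prop E)^[n] S = univ

/-- Minimum lazy burning sets. -/
def IsMinLazy (S : Finset V) : Prop := IsLazy E S ∧ ∀ S', IsLazy E S' → S.card ≤ S'.card

end Defs

/-- The edges of the example. -/
def E8 : Finset (Finset (Fin 8)) :=
  {{0, 1, 2}, {1, 2, 3}, {2, 3, 4}, {3, 4, 5}, {3, 4, 6}, {3, 4, 7},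
    {5, 6, 7, 0}, {5, 6, 7, 1}, {5, 6, 7, 2}, {5, 6, 7, 3}, {5, 6, 7, 4}}

/-- The burning sequence `(5, 6, 7, 0)`. -/
def u8 : ℕ → Fin 8
  | 1 => 5
  | 2 => 6
  | 3 => 7
  | _ => 0

lemma burning : IsBurning E8 4 u8 := by
  constructor
  · intro r hr
    interval_cases r <;> decide +kernel
  · decide +kernel

/-- Two elements cannot start fast enough. -/
lemma three_rounds : ∀ a b c : Fin 8,
    insert c (prop E8 (insert b (prop E8 (insert a (prop E8 ∅))))) ≠ univ := by
  decide +kernel

lemma F_mono {V : Type} [Fintype V] [DecidableEq V] (E : Finset (Finset V)) (u : ℕ → V) {r s : ℕ}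
    (h : r ≤ s) : F E u r ⊆ F E u s := by
  induction s with
  | zero => rw [Nat.le_zero.mp h]
  | succ s ih =>
    rcases Nat.lt_or_ge s r with h' | h'
    · rw [show r = s + 1 by omega]
    · exact (ih h').trans (subset_union_left.trans (subset_insert _ _))

lemma optimal : IsOptimal E8 4 u8 := by
  refine ⟨burning, fun k' u' h => ?_⟩
  by_contra hlt
  have h1 := F_mono E8 u' (show k' ≤ 3 by omega)
  rw [h.2] at h1
  exact three_rounds (u' 1) (u' 2) (u' 3) (univ_subset_iff.mp h1)

lemma lazy_two : IsLazy E8 {0, 1} := ⟨4, by decide +kernel⟩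

lemma small_stuck : ∀ S ∈ ({5, 6, 7, 0} : Finset (Fin 8)).powerset, S.card ≤ 2 →
    prop E8 S = S ∧ S ≠ univ := by
  decide +kernel

/-- **An optimal burning sequence need not contain a minimum lazy burning set.** -/
theorem result : ¬ ∀ (V : Type) (_ : Fintype V) (_ : DecidableEq V) (_ : Nonempty V)
    (E : Finset (Finset V)) (k : ℕ) (u : ℕ → V), IsOptimal E k u →
      ∃ S : Finset V, (∀ x ∈ S, ∃ r, 1 ≤ r ∧ r ≤ k ∧ u r = x) ∧ IsMinLazy E S := by
  intro h
  obtain ⟨S, hS1, hS2, hS3⟩ := h (Fin 8) inferInstance inferInstance inferInstance E8 4 u8 optimal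
  have hcard : S.card ≤ 2 := hS3 _ lazy_two
  have hsub : S ∈ ({5, 6, 7, 0} : Finset (Fin 8)).powerset := by
    rw [mem_powerset]
    intro x hx
    obtain ⟨r, hr1, hr2, rfl⟩ := hS1 x hx
    interval_cases r <;> decide
  obtain ⟨h1, h2⟩ := small_stuck S hsub hcard
  obtain ⟨n, hn⟩ := hS2
  rw [Function.iterate_fixed h1] at hn
  exact h2 hn

end Pool.Agent.Results.MP_50e72c_co.OptimalWithoutLazy
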